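import Pool.Agent.Helper10.BD.Final
import Pool.Agent.Helper10.BD.WRAP
import Pool.Agent.Helper30.BD.CIR
import Pool.Agent.Helper15.BD.LIFT

/-!
# Flat directions can be wrapped up with bounded curvature

Let `j ≥ q ≥ 1`, and `q ≤ 30` or `j ≥ 10⁷ q log q`; `r` is arbitrary.  One smooth map
`f : ℝ^q × ℝ^r × ℝ^j → ℝ^(q+r+j)` turns every immersed manifold of
`ℝ^q × {|y|² ≤ 0.324} × {|v| ≤ 0.1}` of normal curvature at most `21` into an immersed manifold of the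
closed unit ball of normal curvature at most `100`.
-/

open scoped ContDiff

namespace Pool.Agent.Results.MP_eec6f5_gt.FlatDirections

/-- Euclidean space. -/
abbrev E (n : ℕ) := EuclideanSpace ℝ (Fin n)

/-- `ℝ^q × ℝ^r × ℝ^j`, with points `(x, y, v)`. -/
abbrev V (q r j : ℕ) := E q × E r × E j

/-- The Euclidean norm of `ℝ^q × ℝ^r × ℝ^j`. -/
noncomputable def eu {q r j : ℕ} (ξ : V q r j) : ℝ := √(‖ξ.1‖ ^ 2 + ‖ξ.2.1‖ ^ 2 + ‖ξ.2.2‖ ^ 2)

/-- The map `φ` of `ℝ^m` has normal curvature at most `K` at `x`: for every `v` the distance of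
`D²φ(x)(v,v)` to the image of `Dφ(x)` is at most `K |Dφ(x) v|²` (`nm` is the Euclidean norm of the target). -/
def NCurvLE {m : ℕ} {F : Type} [NormedAddCommGroup F] [NormedSpace ℝ F] (nm : F → ℝ) (φ : E m → F)
    (x : E m) (K : ℝ) : Prop :=
  ∀ v, ∃ w, nm (fderiv ℝ (fderiv ℝ φ) x v v - fderiv ℝ φ x w) ≤ K * nm (fderiv ℝ φ x v) ^ 2

/-- The point `p = (x, y, v)` is in `ℝ^q × {|y|² ≤ 0.324} × {|v| ≤ 0.1}`. -/
def InSlab {q r j : ℕ} (p : V q r j) : Prop := ‖p.2.1‖ ^ 2 ≤ 324 / 1000 ∧ ‖p.2.2‖ ≤ 1 / 10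

/-- The map `φ` of `ℝ^m` is immersive at `x`. -/
def ImmAt {m : ℕ} {F : Type} [NormedAddCommGroup F] [NormedSpace ℝ F] (φ : E m → F) (x : E m) : Prop :=
  Function.Injective (fderiv ℝ φ x)

/-- The smooth map `f` turns immersed manifolds of `ℝ^q × {|y|² ≤ 0.324} × {|v| ≤ 0.1}` of normal curvature at
most `21` into immersed manifolds of the closed unit ball of normal curvature at most `100`: for every `C²`
map `φ` of `ℝ^m` (a chart), at every point. -/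
def Wraps {q r j n : ℕ} (f : V q r j → E n) : Prop :=
  ContDiff ℝ ∞ f ∧ ∀ (m : ℕ) (φ : E m → V q r j) (x : E m), ContDiffAt ℝ 2 φ x → InSlab (φ x) →
    ‖f (φ x)‖ ≤ 1 ∧ (ImmAt φ x → ImmAt (f ∘ φ) x) ∧ (NCurvLE eu φ x 21 → NCurvLE norm (f ∘ φ) x 100)

/-- Let `q ≥ 1`, `r ≥ 0`, `j ≥ q`, and `q ≤ 30` or `j ≥ 10⁷ q log q`.  There is a smooth map `f` of
`ℝ^q × ℝ^r × ℝ^j` to `ℝ^(q+r+j)` such that, for every `m`, every map `φ` of
`ℝ^m` to `ℝ^q × ℝ^r × ℝ^j` and every point `x` where `φ` is `C²`, with `φ(x)` in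
`ℝ^q × {|y|² ≤ 0.324} × {|v| ≤ 0.1}`: `f (φ x)` is in the closed unit ball, `f ∘ φ` is immersive at `x` if
`φ` is, and the normal curvature of `f ∘ φ` at `x` is at most `100` if that of `φ` is at most `21`. -/
theorem result : ∀ q r j : ℕ, 1 ≤ q → q ≤ j →
    (q ≤ 30 ∨ (10 : ℝ) ^ 7 * (q * Real.log q) ≤ j) →
    ∃ f : V q r j → E (q + r + j), Wraps f := by
  intro q r j _ hqj h
  obtain ⟨Ψ, S, a, B, b, hΨ, hS, ha, hB, hb, hSb⟩ := Pool.Agent.Helper10.BD.thick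
    Pool.Agent.Helper30.BD.CIR.t Pool.Agent.Helper15.BD.LIFT.t q r j hqj h
  obtain ⟨h1, h2⟩ := Pool.Agent.Helper10.BD.WRAP.wrap hΨ hS ha hB hSb
  refine ⟨_, h1, fun m φ x hφ hsl => ?_⟩
  obtain ⟨h3, h4, h5⟩ := h2 m φ x hφ hsl.1 hsl.2
  refine ⟨h3, h4, fun hc => h5 fun v => ?_⟩
  obtain ⟨w, hw⟩ := hc v
  refine ⟨w, hw.trans (le_of_eq ?_)⟩
  unfold eu
  rw [Real.sq_sqrt (by positivity)]
  rfl

end Pool.Agent.Results.MP_eec6f5_gt.FlatDirections
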