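import Pool.Agent.Helper76.CV.Final
import Pool.Agent.Helper76.CV.GDD
import Pool.Agent.Helper76.CV.HNC
import Pool.Agent.Helper76.CV.LOZ
import Pool.Agent.Helper76.CV.NE
import Pool.Agent.Helper2.CV.WF1
import Pool.Agent.Helper7.CV.DEU
import Pool.Agent.Helper8.CV.ENC
import Pool.Agent.Helper9.CV.CCE
import Pool.Agent.Helper9.CV.CMP
import Pool.Agent.Helper10.CV.DISJ
import Pool.Agent.Helper12.CV.UBQ
import Pool.Agent.Helper13.CV.XB
import Pool.Agent.Helper14.CV.ZP
import Pool.Agent.Helper16.CV.DEZ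
import Pool.Agent.Helper18.CV.WRB
import Pool.Agent.Helper20.CV.LOA
import Pool.Agent.Helper22.CV.UPQ
import Pool.Agent.Helper23.CV.CCF
import Pool.Agent.Helper24.CV.GAQ
import Pool.Agent.Helper35.CV.JET2
import Pool.Agent.Helper37.CV.WRA
import Pool.Agent.Helper38.CV.PRB
import Pool.Agent.Helper39.CV.CCS
import Pool.Agent.Helper41.CV.HNB
import Pool.Agent.Helper46.CV.JET3
import Pool.Agent.Helper50.CV.HNA
import Pool.Agent.Helper51.CV.NFB
import Pool.Agent.Helper52.CV.TNQ
import Pool.Agent.Helper55.CV.SMH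
import Pool.Agent.Helper57.CV.STB
import Pool.Agent.Helper58.CV.JET1
import Pool.Agent.Helper59.CV.LOQ
import Pool.Agent.Helper61.CV.FIC
import Pool.Agent.Helper63.CV.SWF
import Pool.Agent.Helper63.CV.WF3
import Pool.Agent.Helper66.CV.KAP
import Pool.Agent.Helper67.CV.TTF
import Pool.Agent.Helper67.CV.WF4
import Pool.Agent.Helper70.CV.WF2
import Pool.Agent.Helper73.CV.CJT
import Pool.Agent.Helper75.CV.LBQ
import Pool.Agent.Helper77.CV.BAN
import Pool.Agent.Helper79.CV.GRQ
import Pool.Agent.Helper83.CV.FIS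
import Pool.Agent.Helper84.CV.SC2
import Pool.Agent.Helper85.CV.WRC
import Pool.Agent.Helper88.CV.SC1
import Pool.Agent.Helper89.CV.BAF
import Pool.Agent.Helper89.CV.CCN
import Pool.Agent.Helper90.CV.BAQ
import Pool.Agent.Helper90.CV.NFT
import Pool.Agent.Helper94.CV.BAC
import Pool.Agent.Helper95.CV.TPQ
import Pool.Agent.Helper98.CV.PRA

/-!
# Bounded curvature immersions of hypersurfaces with torsion: capsules with linked tunnels

The hypersurface `X D` (`D = dat r N a b d P`) of dimension `m = r + 3` is the boundary of a long capsule `|y|² + C(t) ≤ 1` in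
`ℝ × ℝ^(r+3)`, with `N - 1` necks, from which two tunnels have been removed.  The tunnel `A` is a neighbourhood of the planes
`y₁ = 2/5 cos θ, y₀ = 2/5 sin θ, y_(j+3) = 0 (a i j = true)`; it makes `d i` turns in the window `i`.  The tunnel `B` (if `b i = true`) is
a neighbourhood of the fixed plane `(12 y₁ + 5 y₂)/13 = 2/5, y₀ = 0, y_(j+3) = 0 (a i j = false)`.  The two tunnels meet once in every turn; near the
points where they meet the coordinate `s` separates their walls (`s ≥ 0` on the walls of `A`, `s ≤ 0` on the walls of `B`).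
-/

open scoped ContDiff

open Pool.Agent.Helper76.CV

namespace Pool.Agent.Results.MP_eec6f5_gt.LinkedTunnels

/-- Let `r ≥ 0`, `N ≥ 1`, `a : ℕ → Fin r → Bool`, `b : ℕ → Bool`, `d : ℕ → ℤ`.  For all large `P` the set `X D`, `D = dat r N a b d P`, is
nonempty and compact, `H D` is smooth and its differential is surjective at the points of `X D` (so `X D` is a nonempty closed
submanifold of dimension `r + 3`); the smooth map `f` to `ℝ^(r+4)` maps `X D` to the closed unit ball, is an immersion on `X D` and has curvature at most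
`100` there. -/
theorem result : ∀ (r N : ℕ) (a : ℕ → Fin r → Bool) (b : ℕ → Bool) (d : ℕ → ℤ), 1 ≤ N →
    ∃ P0 : ℝ, ∀ P : ℝ, P0 ≤ P →
      (X (dat r N a b d P)).Nonempty ∧
      IsCompact (X (dat r N a b d P)) ∧ ContDiff ℝ ∞ (H (dat r N a b d P)) ∧
      (∀ p ∈ X (dat r N a b d P), Function.Surjective (fderiv ℝ (H (dat r N a b d P)) p)) ∧
      ContDiff ℝ ∞ (f (r := r)) ∧ (∀ p ∈ X (dat r N a b d P), ‖f p‖ ≤ 1) ∧
      ImmOn (dat r N a b d P) ∧ CurvLE (dat r N a b d P) 100 := by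
  have wf1 := Pool.Agent.Helper2.CV.WF1.t
  have wf2 := Pool.Agent.Helper70.CV.WF2.t wf1
  have wf3 := Pool.Agent.Helper63.CV.WF3.t wf1
  have wf4 := Pool.Agent.Helper67.CV.WF4.t wf1
  have ubq := Pool.Agent.Helper12.CV.UBQ.t
  have zp := Pool.Agent.Helper14.CV.ZP.t wf1
  have kap := Pool.Agent.Helper66.CV.KAP.t
  have smh := Pool.Agent.Helper55.CV.SMH.t zp kap
  have xb := Pool.Agent.Helper13.CV.XB.t zp kap
  have cmp := Pool.Agent.Helper9.CV.CMP.t smh xb
  have disj := Pool.Agent.Helper10.CV.DISJ.t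
  have pra := Pool.Agent.Helper98.CV.PRA.t
  have prb := Pool.Agent.Helper38.CV.PRB.t
  have loz := Pool.Agent.Helper76.CV.LOZ.t zp kap smh xb disj
  have loa := Pool.Agent.Helper20.CV.LOA.t zp xb pra prb loz
  have jet1 := Pool.Agent.Helper58.CV.JET1.t wf1
  have jet2 := Pool.Agent.Helper35.CV.JET2.t
  have jet3 := Pool.Agent.Helper46.CV.JET3.t
  have cjt := Pool.Agent.Helper73.CV.CJT.t jet1 jet2 jet3
  have dez := Pool.Agent.Helper16.CV.DEZ.t wf1
  have deu := Pool.Agent.Helper7.CV.DEU.t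
  have grq := Pool.Agent.Helper79.CV.GRQ.t
  have gaq := Pool.Agent.Helper24.CV.GAQ.t
  have sc1 := Pool.Agent.Helper88.CV.SC1.t
  have sc2 := Pool.Agent.Helper84.CV.SC2.t
  have lbq := Pool.Agent.Helper75.CV.LBQ.t
  have upq := Pool.Agent.Helper22.CV.UPQ.t lbq grq sc1
  have loq := Pool.Agent.Helper59.CV.LOQ.t lbq sc2
  have baf := Pool.Agent.Helper89.CV.BAF.t
  have bac := Pool.Agent.Helper94.CV.BAC.t
  have ban := Pool.Agent.Helper77.CV.BAN.t
  have baq := Pool.Agent.Helper90.CV.BAQ.t baf bac ban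
  have tpq := Pool.Agent.Helper95.CV.TPQ.t wf2 wf3 wf4 ubq xb
  have tnq := Pool.Agent.Helper52.CV.TNQ.t wf1 xb lbq upq loq gaq baq tpq
  have nft := Pool.Agent.Helper90.CV.NFT.t wf1 xb cjt dez deu tnq
  have nfb := Pool.Agent.Helper51.CV.NFB.t xb jet3 deu baq gaq
  have wra := Pool.Agent.Helper37.CV.WRA.t
  have wrb := Pool.Agent.Helper18.CV.WRB.t
  have wrc := Pool.Agent.Helper85.CV.WRC.t
  have fis := Pool.Agent.Helper83.CV.FIS.t xb wra wrb
  have fic := Pool.Agent.Helper61.CV.FIC.t xb wra wrb wrc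
  have stb := Pool.Agent.Helper57.CV.STB.t
  have hna := Pool.Agent.Helper50.CV.HNA.t
  have hnb := Pool.Agent.Helper41.CV.HNB.t hna
  have hnc := Pool.Agent.Helper76.CV.HNC.t hna
  have enc := Pool.Agent.Helper8.CV.ENC.t
  have cce := Pool.Agent.Helper9.CV.CCE.t stb
  have ccn := Pool.Agent.Helper89.CV.CCN.t stb hna hnb
  have ccf := Pool.Agent.Helper23.CV.CCF.t hna cce ccn
  have ccs := Pool.Agent.Helper39.CV.CCS.t hna
  have ttf := Pool.Agent.Helper67.CV.TTF.t stb
  have swf := Pool.Agent.Helper63.CV.SWF.t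
  have gdd := Pool.Agent.Helper76.CV.GDD.t hnb hnc enc ccf ccs ttf swf
  have fin := Pool.Agent.Helper76.CV.Final.main cmp smh xb wra wrb fis fic loa nft nfb gdd
  intro r N a b d hN
  obtain ⟨P0, hP0⟩ := fin r N a b d hN
  refine ⟨max P0 1, fun P hP => ⟨?_, hP0 P ((le_max_left P0 1).trans hP)⟩⟩
  exact Pool.Agent.Helper76.CV.NE.t r N a b d hN P (lt_of_lt_of_le one_pos ((le_max_right P0 1).trans hP))

end Pool.Agent.Results.MP_eec6f5_gt.LinkedTunnels
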