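import Pool.Agent.Helper10.BD.Final
import Pool.Agent.Helper10.BD.ELEM
import Pool.Agent.Helper10.BD.PROF
import Pool.Agent.Helper10.BD.ABS
import Pool.Agent.Helper14.BC.CHI
import Pool.Agent.Helper96.BD.QF
import Pool.Agent.Helper66.BD.PHYS
import Pool.Agent.Helper14.BD.PRC
import Pool.Agent.Helper51.BD.PRD
import Pool.Agent.Helper9.BD.PRS
import Pool.Agent.Helper13.BD.MBA
import Pool.Agent.Helper57.BD.MOB
import Pool.Agent.Helper30.BD.CIR
import Pool.Agent.Helper15.BD.LIFT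
import Pool.Agent.Helper50.BD.ASM
import Pool.Agent.Helper25.BD.REG

/-!
# Bounded curvature immersions of suspension type hypersurfaces

Points of `ℝ^q × ℝ^r × ℝ^j` are written `(x, y, v)`; `j ≥ q ≥ 1`, and `q ≤ 30` or `j ≥ 10⁷ q log q`; `r` is
arbitrary.  `X_u = {(x, y, v) : |v|² + (|y|² - 1)² = u(x)}`, `u` any smooth function on `ℝ^q` with
`{u ≥ 0}` compact, for which `0` and `1` are regular values, has an immersion of curvature at most `100` in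
the unit ball.  With `B = {u ≥ 0}` and `N = {u ≥ 1}` this is the smoothed boundary of `W × D^j`,
`W = {(x, y) : (|y|² - 1)² ≤ u(x)}` (a disc `D^r` over the points of `N`, a thick sphere `S^(r-1)` over the
other points of `B`).
-/

open scoped ContDiff

namespace Pool.Agent.Results.MP_eec6f5_gt.SuspensionThickenings

/-- Euclidean space. -/
abbrev E (n : ℕ) := EuclideanSpace ℝ (Fin n)

/-- `ℝ^q × ℝ^r × ℝ^j`, with points `(x, y, v)`. -/
abbrev V (q r j : ℕ) := E q × E r × E j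

/-- `u` is smooth, `{u ≥ 0}` is compact, and `Du ≠ 0` where `u = 0` or `u = 1`. -/
def Admissible {q : ℕ} (u : E q → ℝ) : Prop :=
  ContDiff ℝ ∞ u ∧ IsCompact {x | 0 ≤ u x} ∧ ∀ x, u x = 0 ∨ u x = 1 → fderiv ℝ u x ≠ 0

/-- The hypersurface `X_u = {(x, y, v) : |v|² + (|y|² - 1)² = u(x)}` of `ℝ^q × ℝ^r × ℝ^j`. -/
def X {q : ℕ} (r j : ℕ) (u : E q → ℝ) : Set (V q r j) :=
  {p | ‖p.2.2‖ ^ 2 + (‖p.2.1‖ ^ 2 - 1) ^ 2 = u p.1}

/-- `ξ` is a tangent vector of `X_u` at `p = (x, y, v)`: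
`2⟨v, ξ₃⟩ + 4 (|y|² - 1)⟨y, ξ₂⟩ = Du(x)(ξ₁)`. -/
def Tan {q r j : ℕ} (u : E q → ℝ) (p ξ : V q r j) : Prop :=
  2 * inner ℝ p.2.2 ξ.2.2 + 4 * (‖p.2.1‖ ^ 2 - 1) * inner ℝ p.2.1 ξ.2.1 = fderiv ℝ u p.1 ξ.1

/-- `f` is smooth on an open set containing `X_u`. -/
def SmoothNear {q r j n : ℕ} (u : E q → ℝ) (f : V q r j → E n) : Prop :=
  ∃ U : Set (V q r j), IsOpen U ∧ X r j u ⊆ U ∧ ContDiffOn ℝ ∞ f U

/-- The acceleration of a curve. -/
noncomputable def acc {n : ℕ} (γ : ℝ → E n) (t : ℝ) : E n := deriv (deriv γ) t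

/-- `f` is an immersion on `X_u`: its differential is injective on the tangent vectors. -/
def ImmOn {q r j n : ℕ} (u : E q → ℝ) (f : V q r j → E n) : Prop :=
  ∀ p ∈ X r j u, ∀ ξ, Tan u p ξ → fderiv ℝ f p ξ = 0 → ξ = 0

/-- The curvature of `f` on `X_u` is at most `C`: `|(f ∘ c)''(t)| ≤ C` for every curve `c` in `X_u`, `C²` at
`t`, such that `f ∘ c` has unit speed at `t` and `(f ∘ c)''(t)` is orthogonal to the image of the tangent
space of `X_u` (for instance, at all points of a unit speed geodesic of the induced metric). -/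
def CurvLE {q r j n : ℕ} (u : E q → ℝ) (f : V q r j → E n) (C : ℝ) : Prop :=
  ∀ (c : ℝ → V q r j) (t : ℝ), ContDiffAt ℝ 2 c t → (∀ᶠ s in nhds t, c s ∈ X r j u) →
    ‖deriv (f ∘ c) t‖ = 1 →
    (∀ ξ, Tan u (c t) ξ → inner ℝ (acc (f ∘ c) t) (fderiv ℝ f (c t) ξ) = 0) →
    ‖acc (f ∘ c) t‖ ≤ C

/-- Let `q ≥ 1`, `r ≥ 0`, `j ≥ q`, and `q ≤ 30` or `j ≥ 10⁷ q log q`.  Let `u : ℝ^q → ℝ` be smooth with
`{u ≥ 0}` compact and `Du ≠ 0` on `{u = 0}` and on `{u = 1}`.  Then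
`X_u` is compact and regular (the differential of `|v|² + (|y|² - 1)² - u(x)` is not zero at its points), and
there is a map `f` of `ℝ^q × ℝ^r × ℝ^j` to `ℝ^(q+r+j)`, smooth on an open set containing `X_u`, which maps
`X_u` to the closed unit ball, is an immersion on `X_u` and has curvature at most `100` there. -/
theorem result : ∀ q r j : ℕ, 1 ≤ q → q ≤ j →
    (q ≤ 30 ∨ (10 : ℝ) ^ 7 * (q * Real.log q) ≤ j) →
    ∀ u : E q → ℝ, Admissible u →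
      IsCompact (X r j u) ∧ (∀ p ∈ X r j u, ∃ ξ, ¬ Tan u p ξ) ∧
      ∃ f : V q r j → E (q + r + j),
        SmoothNear u f ∧ (∀ p ∈ X r j u, ‖f p‖ ≤ 1) ∧ ImmOn u f ∧ CurvLE u f 100 := by
  rintro q r j _ hqj h u ⟨hu, hK, hr⟩
  have hCIR := Pool.Agent.Helper30.BD.CIR.t
  have hLIFT := Pool.Agent.Helper15.BD.LIFT.t
  have hCHI := Pool.Agent.Helper14.BC.goalCHI
  obtain ⟨h1, h2, f, ⟨U, hU, hXU, hf⟩, h3, h4, h5⟩ := Pool.Agent.Helper10.BD.main
    (Pool.Agent.Helper10.BD.PROF.t hCHI Pool.Agent.Helper14.BD.PRC.t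
      Pool.Agent.Helper51.BD.PRD.t Pool.Agent.Helper9.BD.PRS.t)
    (Pool.Agent.Helper66.BD.PHYS.t Pool.Agent.Helper10.BD.ELEM.t Pool.Agent.Helper96.BD.QF.t)
    (Pool.Agent.Helper57.BD.MOB.t hCHI Pool.Agent.Helper13.BD.MBA.t) hCIR hLIFT
    (Pool.Agent.Helper50.BD.ASM.t Pool.Agent.Helper10.BD.ABS.t) Pool.Agent.Helper25.BD.REG.t
    q r j hqj h u hu hK hr
  exact ⟨h1, h2, f, ⟨U, hU, hXU, hf⟩, h3, h4, h5⟩

end Pool.Agent.Results.MP_eec6f5_gt.SuspensionThickenings
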