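import Pool.Agent.Helper50.BC.ASM
import Pool.Agent.Helper50.BC.TRG
import Pool.Agent.Helper35.BC.RAD
import Pool.Agent.Helper35.BC.EIN
import Pool.Agent.Helper86.BC.JLA
import Pool.Agent.Helper8.BC.DER
import Pool.Agent.Helper2.BC.SHX
import Pool.Agent.Helper74.BC.NTV
import Pool.Agent.Helper12.BC.MOM
import Pool.Agent.Helper56.BC.CNT
import Pool.Agent.Helper30.BC.EMP
import Pool.Agent.Helper14.BC.CHI
import Pool.Agent.Helper85.BC.CAP
import Pool.Agent.Helper48.BC.REG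

/-!
# Bounded curvature immersions of the boundaries of `W × D^j`, `j ≥ 10⁷ q log q`

`W = {h ≥ 0}` is any compact smooth domain of `ℝ^q` (`h` smooth, `0` a regular value); the
hypersurface `X_h = {(w, v) ∈ ℝ^q × ℝ^j : |v|² = h(w)}` of `ℝ^(q+j)` is the smoothed boundary of
`W × D^j`.
-/

open scoped ContDiff

namespace Pool.Agent.Results.MP_eec6f5_gt.ThickDomains

/-- Euclidean space. -/
abbrev E (n : ℕ) := EuclideanSpace ℝ (Fin n)

/-- The hypersurface `X_h = {(w, v) : |v|² = h(w)}` of `ℝ^q × ℝ^j`. -/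
def X {q : ℕ} (j : ℕ) (h : E q → ℝ) : Set (E q × E j) := {p | ‖p.2‖ ^ 2 = h p.1}

/-- `ξ` is a tangent vector of `X_h` at `p`: `2⟨v, ξ₂⟩ = Dh(w)(ξ₁)`, `p = (w, v)`. -/
def Tan {q j : ℕ} (h : E q → ℝ) (p ξ : E q × E j) : Prop :=
  2 * inner ℝ p.2 ξ.2 = fderiv ℝ h p.1 ξ.1

/-- The acceleration of a curve. -/
noncomputable def acc {n : ℕ} (γ : ℝ → E n) (t : ℝ) : E n := deriv (deriv γ) t

/-- `f` is an immersion on `X_h`: its differential is injective on the tangent vectors. -/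
def ImmOn {q j n : ℕ} (h : E q → ℝ) (f : E q × E j → E n) : Prop :=
  ∀ p ∈ X j h, ∀ ξ, Tan h p ξ → fderiv ℝ f p ξ = 0 → ξ = 0

/-- The curvature of `f` on `X_h` is at most `C`: `|(f ∘ c)''(t)| ≤ C` for every curve `c` in `X_h`, `C²` at
`t`, such that `f ∘ c` has unit speed at `t` and `(f ∘ c)''(t)` is orthogonal to the image of the tangent
space of `X_h` (for instance, at all points of a unit speed geodesic of the induced metric). -/
def CurvLE {q j n : ℕ} (h : E q → ℝ) (f : E q × E j → E n) (C : ℝ) : Prop :=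
  ∀ (c : ℝ → E q × E j) (t : ℝ), ContDiffAt ℝ 2 c t → (∀ᶠ s in nhds t, c s ∈ X j h) →
    ‖deriv (f ∘ c) t‖ = 1 →
    (∀ ξ, Tan h (c t) ξ → inner ℝ (acc (f ∘ c) t) (fderiv ℝ f (c t) ξ) = 0) →
    ‖acc (f ∘ c) t‖ ≤ C

/-- Let `q ≥ 2`, `j ≥ 10⁷ q log q`, `h : ℝ^q → ℝ` smooth with `{h ≥ 0}` compact and `Dh ≠ 0` on
`{h = 0}`. Then `X_h` is compact and regular (the differential of `|v|² - h(w)` is not zero at its points),
and there is a smooth map `f` of `ℝ^q × ℝ^j` to `ℝ^(q+j)` which maps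
`X_h = {(w, v) : |v|² = h(w)}` to the closed unit ball, is an immersion on `X_h` and has curvature at
most `100` there. -/
theorem result : ∀ q j : ℕ, 2 ≤ q → (10 : ℝ) ^ 7 * (q * Real.log q) ≤ j →
    ∀ h : E q → ℝ, ContDiff ℝ ∞ h → IsCompact {w | 0 ≤ h w} →
    (∀ w, h w = 0 → fderiv ℝ h w ≠ 0) →
    IsCompact (X j h) ∧ (∀ p ∈ X j h, ∃ ξ, ¬ Tan h p ξ) ∧
    ∃ f : E q × E j → E (q + j),
      ContDiff ℝ ∞ f ∧ (∀ p ∈ X j h, ‖f p‖ ≤ 1) ∧ ImmOn h f ∧ CurvLE h f 100 := by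
  intro q j hq hj h hh hc hr
  have hRAD := Pool.Agent.Helper35.BC.goalRAD
  obtain ⟨F, hF⟩ := Pool.Agent.Helper50.BC.goalTRG (Pool.Agent.Helper86.BC.goalJLA hRAD)
    Pool.Agent.Helper8.BC.goalDER Pool.Agent.Helper2.BC.goalSHX Pool.Agent.Helper74.BC.goalNTV
    (Pool.Agent.Helper12.BC.goalMOM hRAD) Pool.Agent.Helper56.BC.goalCNT q j hq hj
  obtain ⟨Ψ, hΨ⟩ := Pool.Agent.Helper30.BC.goalEMP Pool.Agent.Helper35.BC.goalEIN q j F hF
  obtain ⟨l, g, Φ, hC⟩ := Pool.Agent.Helper85.BC.goalCAP Pool.Agent.Helper14.BC.goalCHI q h hh hc hr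
  have hreg := Pool.Agent.Helper48.BC.reg j h hh hc hr
  exact ⟨hreg.1, hreg.2, Pool.Agent.Helper50.BC.goalASM q j h Ψ l g Φ hh hΨ hC⟩

end Pool.Agent.Results.MP_eec6f5_gt.ThickDomains
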